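import Pool.Agent.H242R3.ES.StmtsN
import Pool.Agent.H725R3.ES.TLb
import Pool.Agent.H023R3.ES.TLa

set_option autoImplicit false
set_option maxHeartbeats 4000000

/-! # ES-N8d: tiling of space by the cones of the flags -/

open Finset MeasureTheory Filter Topology
open scoped Classical

namespace Pool.Agent.H501R3.ES.N8d

open Pool.Agent.H242R3.ES

variable {κ : Type} {m : ℕ}

theorem ext_sum (s : Finset κ) (u : κ → EuclideanSpace ℝ (Fin m)) (x : s → ℝ) :
    ∑ i : s, x i • u i = ∑ T ∈ s, (if h : T ∈ s then x ⟨T, h⟩ else 0) • u T := by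
  rw [← Finset.sum_coe_sort s (fun T => (if h : T ∈ s then x ⟨T, h⟩ else 0) • u T)]
  refine Finset.sum_congr rfl fun i _ => ?_
  rw [dif_pos i.2]

theorem overlap_null' (s s' : Finset κ) (u : κ → EuclideanSpace ℝ (Fin m)) (hc : s.card = m)
    (hdis : ∀ x x' : κ → ℝ, (∀ T, 0 ≤ x T) → (∀ T, 0 ≤ x' T) →
      ∑ T ∈ s, x T • u T = ∑ T ∈ s', x' T • u T → ∃ T ∈ s, x T = 0) :
    volume (Pool.Agent.H725R3.ES.cone u s ∩ Pool.Agent.H725R3.ES.cone u s') = 0 := by
  have hsub : Pool.Agent.H725R3.ES.cone u s ∩ Pool.Agent.H725R3.ES.cone u s' ⊆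
      ⋃ T ∈ (s : Set κ), (Submodule.span ℝ (u '' ((s.erase T : Finset κ) : Set κ)) :
        Set (EuclideanSpace ℝ (Fin m))) := by
    rintro y ⟨⟨x, hx, hy⟩, ⟨x', hx', hy'⟩⟩
    rw [ext_sum] at hy hy'
    obtain ⟨T, hT, h0⟩ := hdis (fun i => if h : i ∈ s then x ⟨i, h⟩ else 0)
      (fun i => if h : i ∈ s' then x' ⟨i, h⟩ else 0)
      (by
        intro i
        split_ifs
        · exact hx _
        · exact le_rfl)
      (by
        intro i
        split_ifs
        · exact hx' _
        · exact le_rfl)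
      (hy.symm.trans hy')
    rw [Set.mem_iUnion₂]
    refine ⟨T, hT, ?_⟩
    rw [SetLike.mem_coe, hy, ← Finset.add_sum_erase _ _ hT]
    have h1 : (if h : T ∈ s then x ⟨T, h⟩ else 0) = 0 := h0
    rw [h1, zero_smul, zero_add]
    refine Submodule.sum_mem _ fun i hi => Submodule.smul_mem _ _ (Submodule.subset_span ?_)
    exact ⟨i, hi, rfl⟩
  refine measure_mono_null hsub ?_
  rw [measure_biUnion_null_iff s.countable_toSet]
  intro T hT
  have hT' : T ∈ s := hT
  apply Measure.addHaar_submodule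
  intro htop
  have h2 : Module.finrank ℝ (Submodule.span ℝ (u '' ((s.erase T : Finset κ) : Set κ))) ≤
      (s.erase T).card := by
    rw [← Finset.coe_image]
    exact (finrank_span_finset_le_card _).trans Finset.card_image_le
  rw [htop, finrank_top, finrank_euclideanSpace_fin, Finset.card_erase_of_mem hT', hc] at h2
  have h3 : 0 < s.card := Finset.card_pos.mpr ⟨T, hT'⟩
  omega

theorem tile (S : Finset (Finset κ)) (u : κ → EuclideanSpace ℝ (Fin m))
    (hc : ∀ s ∈ S, s.card = m) (hl : ∀ s ∈ S, LinearIndependent ℝ (fun i : s => u i))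
    (hcov : ∀ y, ∃ s ∈ S, ∃ x : κ → ℝ, (∀ T, 0 ≤ x T) ∧ y = ∑ T ∈ s, x T • u T)
    (hdis : ∀ s ∈ S, ∀ s' ∈ S, s ≠ s' → ∀ x x' : κ → ℝ, (∀ T, 0 ≤ x T) → (∀ T, 0 ≤ x' T) →
      ∑ T ∈ s, x T • u T = ∑ T ∈ s', x' T • u T → ∃ T ∈ s, x T = 0) :
    ∑ s ∈ S, Real.sqrt (GU s u).det * ∫ x in {x : s → ℝ | ∀ i, 0 ≤ x i},
      Real.exp (-Real.pi * ∑ i : s, ∑ k : s, x i * inner ℝ (u i) (u k) * x k) = 1 := by
  have hmeas : ∀ s : S, NullMeasurableSet (Pool.Agent.H725R3.ES.cone u s)
      (volume : Measure (EuclideanSpace ℝ (Fin m))) :=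
    fun s => (Pool.Agent.H725R3.ES.cone_closed u s (hl s s.2)).measurableSet.nullMeasurableSet
  have hdj : Pairwise (Function.onFun (AEDisjoint (volume : Measure (EuclideanSpace ℝ (Fin m))))
      fun s : S => Pool.Agent.H725R3.ES.cone u s) := by
    intro s s' hss
    exact overlap_null' s s' u (hc s s.2) (hdis s s.2 s' s'.2 (fun h => hss (Subtype.ext h)))
  have hcv : (⋃ s : S, Pool.Agent.H725R3.ES.cone u s) = Set.univ := by
    rw [Set.eq_univ_iff_forall]
    intro y
    obtain ⟨s, hs, x, hx, hy⟩ := hcov y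
    rw [Set.mem_iUnion]
    refine ⟨⟨s, hs⟩, fun i => x i, fun i => hx i, ?_⟩
    rw [hy]
    exact (Finset.sum_coe_sort s (fun T => x T • u T)).symm
  have h3 := integral_iUnion_ae (μ := (volume : Measure (EuclideanSpace ℝ (Fin m))))
    (f := fun y => Real.exp (-Real.pi * ‖y‖ ^ 2)) hmeas hdj
    ((Pool.Agent.H725R3.ES.gauss_int m).integrableOn)
  rw [hcv, setIntegral_univ, Pool.Agent.H725R3.ES.gauss_one, tsum_fintype] at h3
  rw [h3, Finset.sum_coe_sort S
    (fun s => ∫ y in Pool.Agent.H725R3.ES.cone u s, Real.exp (-Real.pi * ‖y‖ ^ 2))]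
  refine Finset.sum_congr rfl fun s hs => ?_
  exact Pool.Agent.H023R3.ES.tla s u (hc s hs) (hl s hs)

theorem t : TaskN8d := by
  intro hInd hCov hDis ι E _ _ _ _ V j o m p h8 d hd
  have hcard : ∀ s ∈ Fl V j m, s.card = m := fun s hs => (Finset.mem_filter.mp hs).2.1
  have hl : ∀ s ∈ Fl V j m, LinearIndependent ℝ (fun T : s => d T • p (Y V T)) := by
    intro s hs
    have h1 := hInd ι E V j o m p h8 s hs
    have h2 := h1.units_smul (fun T : s => Units.mk0 (d T) (hd s hs T T.2).ne')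
    exact h2
  refine ⟨hl, ?_⟩
  refine tile (Fl V j m) (fun T => d T • p (Y V T)) hcard hl ?_ ?_
  · intro y
    obtain ⟨s, hs, x, hx, hy⟩ := hCov ι E V j o m p h8 y
    refine ⟨s, hs, fun T => if T ∈ s then x T / d T else 0, ?_, ?_⟩
    · intro T
      dsimp only
      split_ifs with hT
      · exact div_nonneg (hx T) (hd s hs T hT).le
      · exact le_rfl
    · rw [hy]
      refine Finset.sum_congr rfl fun T hT => ?_
      dsimp only
      rw [if_pos hT, smul_smul, div_mul_cancel₀ _ (hd s hs T hT).ne']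
  · intro s hs s' hs' hne x x' hx hx' heq
    obtain ⟨T, hT, h0⟩ := hDis ι E V j o m p h8 s hs s' hs' hne
      (fun T => if T ∈ s then x T * d T else 0) (fun T => if T ∈ s' then x' T * d T else 0)
      (by
        intro T
        split_ifs with hT
        · exact mul_nonneg (hx T) (hd s hs T hT).le
        · exact le_rfl)
      (by
        intro T
        split_ifs with hT
        · exact mul_nonneg (hx' T) (hd s' hs' T hT).le
        · exact le_rfl)
      (by
        have e1 : ∑ T ∈ s, (if T ∈ s then x T * d T else 0) • p (Y V T) =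
            ∑ T ∈ s, x T • (d T • p (Y V T)) :=
          Finset.sum_congr rfl fun T hT => by rw [if_pos hT, smul_smul]
        have e2 : ∑ T ∈ s', (if T ∈ s' then x' T * d T else 0) • p (Y V T) =
            ∑ T ∈ s', x' T • (d T • p (Y V T)) :=
          Finset.sum_congr rfl fun T hT => by rw [if_pos hT, smul_smul]
        rw [e1, e2]
        exact heq)
    refine ⟨T, hT, ?_⟩
    have h1 : (if T ∈ s then x T * d T else 0) = 0 := h0
    rw [if_pos hT] at h1
    rcases mul_eq_zero.mp h1 with h | h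
    · exact h
    · exact absurd h (hd s hs T hT).ne'

end Pool.Agent.H501R3.ES.N8d
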